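import Mathlib
import Pool.Agent.H813R3.Voj.Rad

/-!
# The number of `m ≤ X` with `m (m + 1) ≥ Z rad (m (m + 1))`
-/

set_option autoImplicit false

namespace Pool.Agent.Helper932MB

open Finset
open Pool.Agent.H813R3.Voj (rd rd_pos rho sum_inv_rho)

theorem rd_dvd_rd {d M : ℕ} (h : d ∣ M) (hM : M ≠ 0) : rd d ∣ rd M :=
  Finset.prod_dvd_prod_of_subset _ _ _ (Nat.primeFactors_mono h hM)

theorem rd_dvd (M : ℕ) : rd M ∣ M := Nat.prod_primeFactors_dvd M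

theorem sum_rd {δ : ℝ} (hδ : 0 < δ) : ∃ C : ℝ, 0 < C ∧ ∀ N : ℕ, 1 ≤ N →
    ∑ n ∈ Icc 1 N, (1 : ℝ) / rd n ≤ C * (N : ℝ) ^ δ := by
  obtain ⟨C, hC, h⟩ := sum_inv_rho ∅ hδ
  refine ⟨C, hC, fun N hN => le_trans (le_of_eq ?_) (h N hN)⟩
  refine Finset.sum_congr rfl fun n _ => ?_
  unfold rho rd
  rw [Finset.sdiff_empty, Int.natAbs_natCast]

/-- a divisor of moderate size -/
theorem extract {M Z : ℕ} (hM : 0 < M) (hZ : 1 ≤ Z) (h : Z * rd M ≤ M) :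
    (∃ p : ℕ, p.Prime ∧ Z ^ 2 < p ∧ p ^ 2 ∣ M) ∨
      ∃ d : ℕ, Z ≤ d ∧ d ≤ Z ^ 3 ∧ d * rd d ∣ M := by
  obtain ⟨U, hU⟩ := rd_dvd M
  have hU0 : 0 < U := by
    rcases Nat.eq_zero_or_pos U with h0 | h0
    · rw [h0, mul_zero] at hU
      omega
    · exact h0
  have hUM : U ∣ M := ⟨rd M, by rw [mul_comm]; exact hU⟩
  have hZU : Z ≤ U := by
    have h1 : rd M * Z ≤ rd M * U := by
      rw [mul_comm (rd M) Z]
      exact h.trans_eq hU
    exact Nat.le_of_mul_le_mul_left h1 (rd_pos M)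
  have hex : ∃ d, d ∣ U ∧ Z ≤ d := ⟨U, dvd_rfl, hZU⟩
  obtain ⟨hd1, hd2⟩ := Nat.find_spec hex
  have hmin : ∀ e, e < Nat.find hex → ¬ (e ∣ U ∧ Z ≤ e) := fun e he => Nat.find_min hex he
  set d := Nat.find hex with hd
  have hdM : d ∣ M := hd1.trans hUM
  have hdvd : d * rd d ∣ M := by
    rw [hU, mul_comm d]
    exact mul_dvd_mul (rd_dvd_rd hdM hM.ne') hd1
  by_cases hlarge : ∃ p : ℕ, p.Prime ∧ Z ^ 2 < p ∧ p ^ 2 ∣ M
  · exact Or.inl hlarge
  · refine Or.inr ⟨d, hd2, ?_, hdvd⟩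
    by_cases hd1' : d = 1
    · rw [hd1']
      exact Nat.one_le_pow _ _ hZ
    · obtain ⟨p, hp, e, he⟩ := Nat.exists_prime_and_dvd hd1'
      have hd0 : 0 < d := lt_of_lt_of_le hZ hd2
      have he0 : 0 < e := by
        rcases Nat.eq_zero_or_pos e with h0 | h0
        · rw [h0, mul_zero] at he
          omega
        · exact h0
      have hed : e < d := by
        rw [he]
        exact lt_mul_left he0 hp.one_lt
      have heU : e ∣ U := (Dvd.intro_left p he.symm).trans hd1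
      have heZ : e < Z := by
        by_contra hcon
        exact hmin e hed ⟨heU, not_lt.mp hcon⟩
      have hpU : p ∣ U := (Dvd.intro e he.symm).trans hd1
      have hpR : p ∣ rd M := by
        unfold rd
        exact Finset.dvd_prod_of_mem _
          (Nat.mem_primeFactors.mpr ⟨hp, hpU.trans hUM, hM.ne'⟩)
      have hp2 : p ^ 2 ∣ M := by
        rw [hU, sq]
        exact mul_dvd_mul hpR hpU
      have hpZ : p ≤ Z ^ 2 := by
        by_contra hcon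
        exact hlarge ⟨p, hp, not_le.mp hcon, hp2⟩
      calc d = p * e := he
        _ ≤ Z ^ 2 * Z := Nat.mul_le_mul hpZ heZ.le
        _ = Z ^ 3 := by ring

/-- splitting of the divisor -/
theorem split {m d : ℕ} (hm : 0 < m) (hd : 0 < d) (h : d * rd d ∣ m * (m + 1)) :
    ∃ d1 d2 : ℕ, d = d1 * d2 ∧ 0 < d1 ∧ 0 < d2 ∧ d1 ≤ d ∧ d2 ≤ d ∧
      d1 * rd d1 ∣ m ∧ d2 * rd d2 ∣ m + 1 := by
  have hcop : Nat.Coprime m (m + 1) := by simp
  have hM : m * (m + 1) ≠ 0 := by positivity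
  have hdM : d ∣ m * (m + 1) := (Dvd.intro _ rfl).trans h
  have key : ∀ (e x y : ℕ), e ∣ d → e ∣ x → Nat.Coprime x y → d * rd d ∣ x * y → x * y ≠ 0 →
      e * rd e ∣ x := by
    intro e x y hed hex hxy hD hne
    have h1 : e * rd e ∣ x * y := (mul_dvd_mul hed (rd_dvd_rd hed hd.ne')).trans hD
    have h2 : Nat.Coprime (e * rd e) y :=
      Nat.Coprime.mul_left (Nat.Coprime.coprime_dvd_left hex hxy)
        (Nat.Coprime.coprime_dvd_left ((rd_dvd e).trans hex) hxy)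
    exact h2.dvd_of_dvd_mul_right h1
  refine ⟨Nat.gcd d m, Nat.gcd d (m + 1), ?_, Nat.gcd_pos_of_pos_left _ hd,
    Nat.gcd_pos_of_pos_left _ hd, Nat.gcd_le_left _ hd, Nat.gcd_le_left _ hd, ?_, ?_⟩
  · rw [← Nat.Coprime.gcd_mul d hcop, Nat.gcd_eq_left hdM]
  · exact key _ m (m + 1) (Nat.gcd_dvd_left _ _) (Nat.gcd_dvd_right _ _) hcop h hM
  · exact key _ (m + 1) m (Nat.gcd_dvd_left _ _) (Nat.gcd_dvd_right _ _) hcop.symm
      (by rw [mul_comm (m + 1) m]; exact h) (by rw [mul_comm]; exact hM)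

theorem card_class {D X : ℕ} (F : Finset ℕ) (hF : ∀ m ∈ F, m ≤ X)
    (hc : ∀ m ∈ F, ∀ m' ∈ F, m % D = m' % D) : F.card ≤ X / D + 1 := by
  have hinj : Set.InjOn (fun m => m / D) (F : Set ℕ) := by
    intro m hm m' hm' h
    simp only at h
    have h1 := Nat.div_add_mod m D
    have h2 := Nat.div_add_mod m' D
    rw [← h1, ← h2, h, hc m hm m' hm']
  rw [← Finset.card_image_of_injOn hinj]
  have hs : F.image (fun m => m / D) ⊆ range (X / D + 1) := by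
    intro k hk
    obtain ⟨m, hm, rfl⟩ := mem_image.mp hk
    rw [mem_range]
    exact Nat.lt_succ_of_le (Nat.div_le_div_right (hF m hm))
  simpa using card_le_card hs

theorem card_pair {D1 D2 X : ℕ} :
    ((Icc 1 X).filter fun m => D1 ∣ m ∧ D2 ∣ m + 1).card ≤ X / (D1 * D2) + 1 := by
  refine card_class _ (fun m hm => ?_) fun m hm m' hm' => ?_
  · rw [mem_filter, mem_Icc] at hm
    exact hm.1.2
  · rw [mem_filter] at hm hm'
    have hcop : Nat.Coprime D1 D2 := by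
      have h1 : Nat.Coprime m (m + 1) := by simp
      exact Nat.Coprime.coprime_dvd_left hm.2.1 (Nat.Coprime.coprime_dvd_right hm.2.2 h1)
    have h1 : m ≡ m' [MOD D1] :=
      ((Nat.modEq_zero_iff_dvd.mpr hm.2.1).trans (Nat.modEq_zero_iff_dvd.mpr hm'.2.1).symm)
    have h2 : m + 1 ≡ m' + 1 [MOD D2] :=
      ((Nat.modEq_zero_iff_dvd.mpr hm.2.2).trans (Nat.modEq_zero_iff_dvd.mpr hm'.2.2).symm)
    have h3 : m ≡ m' [MOD D2] := Nat.ModEq.add_right_cancel' 1 h2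
    exact (Nat.modEq_and_modEq_iff_modEq_mul hcop).mp ⟨h1, h3⟩

/-- multiples of large squares -/
def sqs (Y X : ℕ) : Finset ℕ :=
  (Ioc Y X).biUnion fun k => (Ioc 0 X).filter fun m => k ^ 2 ∣ m

theorem card_sq {Y X : ℕ} (hY : 1 ≤ Y) : ((sqs Y X).card : ℝ) ≤ (X : ℝ) / Y := by
  have hY0 : (0 : ℝ) < Y := by exact_mod_cast hY
  have h2 : ((sqs Y X).card : ℝ) ≤ ∑ k ∈ Ioc Y X, (X : ℝ) * (((k : ℝ) ^ 2)⁻¹) := by
    have h3 : (sqs Y X).card ≤ ∑ k ∈ Ioc Y X, ((Ioc 0 X).filter fun m => k ^ 2 ∣ m).card :=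
      card_biUnion_le
    have h4 : ((sqs Y X).card : ℝ) ≤
        ∑ k ∈ Ioc Y X, (((Ioc 0 X).filter fun m => k ^ 2 ∣ m).card : ℝ) := by exact_mod_cast h3
    refine h4.trans (Finset.sum_le_sum fun k _ => ?_)
    rw [Nat.Ioc_filter_dvd_card_eq_div]
    refine Nat.cast_div_le.trans (le_of_eq ?_)
    push_cast
    rw [div_eq_mul_inv]
  refine h2.trans ?_
  rw [← Finset.mul_sum, div_eq_mul_inv]
  refine mul_le_mul_of_nonneg_left ?_ (Nat.cast_nonneg _)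
  by_cases hYX : Y ≤ X
  · refine (sum_Ioc_inv_sq_le_sub (α := ℝ) (by omega) hYX).trans ?_
    have : (0 : ℝ) ≤ (X : ℝ)⁻¹ := by positivity
    linarith
  · rw [Finset.Ioc_eq_empty_of_le (by omega), Finset.sum_empty]
    positivity

/-- the bad numbers -/
def bad (Z X : ℕ) : Finset ℕ := (Icc 1 X).filter fun m => Z * rd (m * (m + 1)) ≤ m * (m + 1)

theorem bad_sub {Z X : ℕ} (hZ : 1 ≤ Z) : bad Z X ⊆
    (((Icc 1 (Z ^ 3)) ×ˢ (Icc 1 (Z ^ 3))).filter fun p => Z ≤ p.1 * p.2).biUnion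
        (fun p => (Icc 1 X).filter fun m => p.1 * rd p.1 ∣ m ∧ p.2 * rd p.2 ∣ m + 1) ∪
      (sqs (Z ^ 2) (X + 1) ∪ (sqs (Z ^ 2) (X + 1)).image (fun m => m - 1)) := by
  intro m hm
  unfold bad at hm
  rw [mem_filter, mem_Icc] at hm
  obtain ⟨⟨hm1, hm2⟩, hm3⟩ := hm
  have hM : 0 < m * (m + 1) := by positivity
  rcases extract hM hZ hm3 with ⟨p, hp, hpZ, hpM⟩ | ⟨d, hd1, hd2, hd3⟩
  · rw [mem_union]
    right
    have hle : ∀ x, 0 < x → x ≤ X + 1 → p ^ 2 ∣ x → p ∈ Ioc (Z ^ 2) (X + 1) := by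
      intro x hx0 hx hpx
      rw [mem_Ioc]
      refine ⟨hpZ, ?_⟩
      have h1 := Nat.le_of_dvd hx0 hpx
      have h2 : p ≤ p ^ 2 := by nlinarith [hp.one_lt]
      omega
    have hcop : Nat.Coprime m (m + 1) := by simp
    by_cases hpm : p ∣ m
    · have h1 : Nat.Coprime (p ^ 2) (m + 1) :=
        Nat.Coprime.pow_left 2 (Nat.Coprime.coprime_dvd_left hpm hcop)
      have h2 : p ^ 2 ∣ m := h1.dvd_of_dvd_mul_right hpM
      rw [mem_union]
      left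
      unfold sqs
      rw [mem_biUnion]
      exact ⟨p, hle m (by omega) (by omega) h2,
        mem_filter.mpr ⟨mem_Ioc.mpr ⟨by omega, by omega⟩, h2⟩⟩
    · have h1 : Nat.Coprime (p ^ 2) m :=
        Nat.Coprime.pow_left 2 ((Nat.Prime.coprime_iff_not_dvd hp).mpr hpm)
      have h2 : p ^ 2 ∣ m + 1 := h1.dvd_of_dvd_mul_left hpM
      rw [mem_union]
      right
      rw [mem_image]
      refine ⟨m + 1, ?_, by omega⟩
      unfold sqs
      rw [mem_biUnion]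
      exact ⟨p, hle (m + 1) (by omega) (by omega) h2,
        mem_filter.mpr ⟨mem_Ioc.mpr ⟨by omega, by omega⟩, h2⟩⟩
  · rw [mem_union]
    left
    obtain ⟨d1, d2, h1, h2, h3, h4, h5, h6, h7⟩ := split hm1 (lt_of_lt_of_le hZ hd1) hd3
    rw [mem_biUnion]
    refine ⟨(d1, d2), ?_, ?_⟩
    · rw [mem_filter, mem_product, mem_Icc, mem_Icc]
      exact ⟨⟨⟨h2, h4.trans hd2⟩, ⟨h3, h5.trans hd2⟩⟩, by rw [← h1]; exact hd1⟩
    · rw [mem_filter, mem_Icc]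
      exact ⟨⟨hm1, hm2⟩, h6, h7⟩

/-- the count -/
theorem card_bad {δ : ℝ} (hδ : 0 < δ) : ∃ C : ℝ, 0 < C ∧ ∀ Z X : ℕ, 1 ≤ Z →
    ((bad Z X).card : ℝ) ≤ X * (C * (Z : ℝ) ^ (6 * δ - 1)) + (Z : ℝ) ^ (6 : ℕ) +
      2 * ((X : ℝ) + 1) / (Z : ℝ) ^ (2 : ℕ) := by
  obtain ⟨C, hC, hs⟩ := sum_rd hδ
  refine ⟨C ^ 2, by positivity, fun Z X hZ => ?_⟩
  have hZ0 : (0 : ℝ) < Z := by exact_mod_cast hZ
  have hZ3 : 1 ≤ Z ^ 3 := Nat.one_le_pow _ _ hZ
  have hZ2 : 1 ≤ Z ^ 2 := Nat.one_le_pow _ _ hZ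
  set P := ((Icc 1 (Z ^ 3)) ×ˢ (Icc 1 (Z ^ 3))).filter fun p => Z ≤ p.1 * p.2 with hP
  set E := sqs (Z ^ 2) (X + 1) with hE
  have hEc : (E.card : ℝ) ≤ ((X : ℝ) + 1) / (Z : ℝ) ^ (2 : ℕ) := by
    have := card_sq (Y := Z ^ 2) (X := X + 1) hZ2
    push_cast at this
    exact this
  have h1 : (bad Z X).card ≤ ∑ p ∈ P, (X / ((p.1 * rd p.1) * (p.2 * rd p.2)) + 1) +
      (E.card + E.card) := by
    refine (card_le_card (bad_sub hZ)).trans ((card_union_le _ _).trans ?_)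
    refine add_le_add (card_biUnion_le.trans (Finset.sum_le_sum fun p _ => card_pair)) ?_
    exact (card_union_le _ _).trans (add_le_add le_rfl card_image_le)
  have h2 : ((bad Z X).card : ℝ) ≤
      ∑ p ∈ P, (((X / ((p.1 * rd p.1) * (p.2 * rd p.2)) : ℕ) : ℝ) + 1) +
      ((E.card : ℝ) + E.card) := by exact_mod_cast h1
  have h3 : ∑ p ∈ P, (((X / ((p.1 * rd p.1) * (p.2 * rd p.2)) : ℕ) : ℝ) + 1) ≤
      X * (C ^ 2 * (Z : ℝ) ^ (6 * δ - 1)) + (Z : ℝ) ^ (6 : ℕ) := by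
    rw [Finset.sum_add_distrib]
    refine add_le_add ?_ ?_
    · have h4 : ∀ p ∈ P, ((X / ((p.1 * rd p.1) * (p.2 * rd p.2)) : ℕ) : ℝ) ≤
          X * (Z : ℝ)⁻¹ * ((1 / (rd p.1 : ℝ)) * (1 / (rd p.2 : ℝ))) := by
        intro p hp
        rw [hP, mem_filter] at hp
        have hZp : (Z : ℝ) ≤ (p.1 : ℝ) * p.2 := by exact_mod_cast hp.2
        have hr1 : (0 : ℝ) < rd p.1 := by exact_mod_cast rd_pos p.1
        have hr2 : (0 : ℝ) < rd p.2 := by exact_mod_cast rd_pos p.2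
        refine Nat.cast_div_le.trans ?_
        push_cast
        have e1 : (X : ℝ) / ((p.1 : ℝ) * rd p.1 * ((p.2 : ℝ) * rd p.2)) =
            X * ((p.1 : ℝ) * p.2)⁻¹ * ((1 / (rd p.1 : ℝ)) * (1 / (rd p.2 : ℝ))) := by
          rw [div_eq_mul_inv, mul_inv, mul_inv, mul_inv, mul_inv]
          ring
        rw [e1]
        gcongr
      refine (Finset.sum_le_sum h4).trans ?_
      rw [← Finset.mul_sum]
      have h5 : ∑ p ∈ P, ((1 / (rd p.1 : ℝ)) * (1 / (rd p.2 : ℝ))) ≤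
          (C * ((Z ^ 3 : ℕ) : ℝ) ^ δ) ^ 2 := by
        have h6 : ∑ p ∈ P, ((1 / (rd p.1 : ℝ)) * (1 / (rd p.2 : ℝ))) ≤
            ∑ p ∈ (Icc 1 (Z ^ 3)) ×ˢ (Icc 1 (Z ^ 3)),
              ((1 / (rd p.1 : ℝ)) * (1 / (rd p.2 : ℝ))) :=
          Finset.sum_le_sum_of_subset_of_nonneg (filter_subset _ _) fun p _ _ => by positivity
        refine h6.trans ?_
        rw [Finset.sum_product]
        show ∑ x ∈ Icc 1 (Z ^ 3), ∑ y ∈ Icc 1 (Z ^ 3), (1 / (rd x : ℝ)) * (1 / (rd y : ℝ)) ≤ _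
        rw [← Finset.sum_mul_sum, ← sq]
        exact pow_le_pow_left₀ (Finset.sum_nonneg fun _ _ => by positivity) (hs _ hZ3) 2
      have h7 : ((Z ^ 3 : ℕ) : ℝ) ^ δ = (Z : ℝ) ^ (3 * δ) := by
        push_cast
        rw [← Real.rpow_natCast, ← Real.rpow_mul hZ0.le]
        norm_num
      have h8 : (Z : ℝ) ^ (6 * δ - 1) = (Z : ℝ)⁻¹ * ((Z : ℝ) ^ (3 * δ)) ^ 2 := by
        rw [← Real.rpow_natCast ((Z : ℝ) ^ (3 * δ)), ← Real.rpow_mul hZ0.le, ← Real.rpow_neg_one,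
          ← Real.rpow_add hZ0]
        congr 1
        push_cast
        ring
      rw [h7] at h5
      calc X * (Z : ℝ)⁻¹ * ∑ p ∈ P, ((1 / (rd p.1 : ℝ)) * (1 / (rd p.2 : ℝ)))
          ≤ X * (Z : ℝ)⁻¹ * (C * (Z : ℝ) ^ (3 * δ)) ^ 2 :=
            mul_le_mul_of_nonneg_left h5 (by positivity)
        _ = X * (C ^ 2 * (Z : ℝ) ^ (6 * δ - 1)) := by
            rw [h8]
            ring
    · rw [Finset.sum_const, nsmul_eq_mul, mul_one]
      have h9 : P.card ≤ Z ^ 3 * Z ^ 3 := by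
        refine (card_le_card (filter_subset _ _)).trans ?_
        rw [card_product]
        simp
      calc (P.card : ℝ) ≤ ((Z ^ 3 * Z ^ 3 : ℕ) : ℝ) := by exact_mod_cast h9
        _ = (Z : ℝ) ^ (6 : ℕ) := by
            push_cast
            ring
  have h10 : (E.card : ℝ) + E.card ≤ 2 * ((X : ℝ) + 1) / (Z : ℝ) ^ (2 : ℕ) := by
    rw [mul_div_assoc]
    linarith
  linarith

end Pool.Agent.Helper932MB
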