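import Mathlib
import Pool.Agent.Helper932MB.Up

/-!
# The upper bound for the defect, for almost every `x`
-/

set_option autoImplicit false

namespace Pool.Agent.Helper932MB

open Finset MeasureTheory Filter Topology
open Pool.Agent.H813R3.Voj (rd rd_pos)

theorem vol_cells {c : ℝ} (hc : 0 < c) (F : Finset ℕ) :
    volume {x : ℝ | 0 ≤ x ∧ ⌊c * x⌋₊ ∈ F} ≤ ENNReal.ofReal (F.card / c) := by
  have hsub : {x : ℝ | 0 ≤ x ∧ ⌊c * x⌋₊ ∈ F} ⊆
      ⋃ r ∈ F, Set.Ico ((r : ℝ) / c) (((r : ℝ) + 1) / c) := by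
    rintro x ⟨hx0, hx⟩
    rw [Set.mem_iUnion₂]
    refine ⟨_, hx, ?_, ?_⟩
    · rw [div_le_iff₀ hc, mul_comm]
      exact Nat.floor_le (by positivity)
    · rw [lt_div_iff₀ hc, mul_comm]
      exact Nat.lt_floor_add_one _
  refine (measure_mono hsub).trans ((measure_biUnion_finset_le _ _).trans ?_)
  have h1 : ∀ r ∈ F, volume (Set.Ico ((r : ℝ) / c) (((r : ℝ) + 1) / c)) =
      ENNReal.ofReal (1 / c) := by
    intro r _
    rw [Real.volume_Ico]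
    congr 1
    ring
  rw [Finset.sum_congr rfl h1, Finset.sum_const, nsmul_eq_mul, ← ENNReal.ofReal_natCast,
    ← ENNReal.ofReal_mul (Nat.cast_nonneg _)]
  refine le_of_eq ?_
  congr 1
  ring

theorem half_floor {y : ℝ} (hy : 1 ≤ y) : y / 2 ≤ (⌊y⌋₊ : ℝ) := by
  have h1 : 1 ≤ ⌊y⌋₊ := (Nat.one_le_floor_iff y).mpr hy
  have h2 : (1 : ℝ) ≤ (⌊y⌋₊ : ℝ) := by exact_mod_cast h1
  have h3 := Nat.lt_floor_add_one y
  linarith

/-- the upper half for one `b`, `B`, `ε` -/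
theorem upper_one (b B : ℕ) (hb : 2 ≤ b) {ε : ℝ} (hε : 0 < ε) :
    ∀ᵐ x : ℝ, 0 ≤ x → x ≤ B → ∀ᶠ n : ℕ in atTop,
      ((⌊(b : ℝ) ^ n * x⌋₊ * (⌊(b : ℝ) ^ n * x⌋₊ + 1) : ℕ) : ℝ) <
        (n : ℝ) ^ (1 + ε) * rd (⌊(b : ℝ) ^ n * x⌋₊ * (⌊(b : ℝ) ^ n * x⌋₊ + 1)) := by
  set δ : ℝ := ε / (12 * (1 + ε)) with hδ
  have hδ0 : 0 < δ := by positivity
  obtain ⟨C, hC, hcard⟩ := card_bad hδ0
  have hb0 : (0 : ℝ) < b := by positivity
  have hb2 : (2 : ℝ) ≤ b := by exact_mod_cast hb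
  set Z : ℕ → ℕ := fun n => ⌊((n : ℝ) + 1) ^ (1 + ε)⌋₊ with hZ
  have hn1 : ∀ n : ℕ, (1 : ℝ) ≤ ((n : ℝ) + 1) ^ (1 + ε) := fun n =>
    Real.one_le_rpow (by linarith [Nat.cast_nonneg (α := ℝ) n]) (by linarith)
  have hZ1 : ∀ n, 1 ≤ Z n := fun n => (Nat.one_le_floor_iff _).mpr (hn1 n)
  have hZlo : ∀ n : ℕ, ((n : ℝ) + 1) ^ (1 + ε) / 2 ≤ Z n := fun n => half_floor (hn1 n)
  have hZhi : ∀ n : ℕ, (Z n : ℝ) ≤ ((n : ℝ) + 1) ^ (1 + ε) := fun n =>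
    Nat.floor_le (by positivity)
  set s : ℕ → Set ℝ := fun n =>
    {x : ℝ | 0 ≤ x ∧ ⌊(b : ℝ) ^ (n + 1) * x⌋₊ ∈ bad (Z n) (B * b ^ (n + 1))} with hs
  set K : ℕ := ⌈6 * (1 + ε)⌉₊ with hK
  set c1 : ℝ := B * C * 2 with hc1
  set c2 : ℝ := 8 * ((B : ℝ) + 1) with hc2
  set f : ℕ → ℝ := fun n => (c1 + c2) * ((n : ℝ) + 1) ^ (-(1 + ε / 2)) +
    ((n : ℝ) + 1) ^ K * (1 / 2) ^ (n + 1) with hf
  have hf0 : ∀ n, 0 ≤ f n := fun n => by positivity
  have hfs : Summable f := by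
    refine Summable.add (Summable.mul_left _ ?_) ?_
    · have h1 := (summable_nat_add_iff 1).mpr
        (Real.summable_nat_rpow.mpr (by linarith : -(1 + ε / 2) < -1))
      refine h1.congr fun n => ?_
      push_cast
      rfl
    · have h1 := (summable_nat_add_iff 1).mpr
        (summable_pow_mul_geometric_of_norm_lt_one K (r := (1 / 2 : ℝ)) (by norm_num))
      refine h1.congr fun n => ?_
      push_cast
      rfl
  have hvol : ∀ n, volume (s n) ≤ ENNReal.ofReal (f n) := by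
    intro n
    have hbn : (0 : ℝ) < (b : ℝ) ^ (n + 1) := by positivity
    refine (vol_cells hbn _).trans (ENNReal.ofReal_le_ofReal ?_)
    rw [div_le_iff₀ hbn]
    refine (hcard (Z n) (B * b ^ (n + 1)) (hZ1 n)).trans ?_
    have hZ0 : (0 : ℝ) < Z n := by
      have := hZ1 n
      exact_mod_cast this
    have hN0 : (0 : ℝ) < (n : ℝ) + 1 := by positivity
    have hN1 : (1 : ℝ) ≤ (n : ℝ) + 1 := by linarith [Nat.cast_nonneg (α := ℝ) n]
    -- first term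
    have e6 : 6 * δ = ε / (2 * (1 + ε)) := by
      rw [hδ]
      field_simp
      ring
    have e7 : (1 + ε) * (1 - 6 * δ) = 1 + ε / 2 := by
      rw [e6]
      field_simp
      ring
    have e8 : 6 * δ < 1 := by
      rw [e6, div_lt_one (by positivity)]
      linarith
    have t1 : (Z n : ℝ) ^ (6 * δ - 1) ≤ 2 * ((n : ℝ) + 1) ^ (-(1 + ε / 2)) := by
      have g1 : (Z n : ℝ) ^ (6 * δ - 1) ≤ (((n : ℝ) + 1) ^ (1 + ε) / 2) ^ (6 * δ - 1) :=
        Real.rpow_le_rpow_of_nonpos (by positivity) (hZlo n) (by linarith)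
      refine g1.trans ?_
      rw [Real.div_rpow (by positivity) (by norm_num), ← Real.rpow_mul hN0.le]
      have g2 : (1 + ε) * (6 * δ - 1) = -(1 + ε / 2) := by linarith
      rw [g2, div_eq_mul_inv, ← Real.rpow_neg (by norm_num), mul_comm]
      refine mul_le_mul_of_nonneg_right ?_ (by positivity)
      calc (2 : ℝ) ^ (-(6 * δ - 1)) ≤ 2 ^ (1 : ℝ) :=
            Real.rpow_le_rpow_of_exponent_le (by norm_num) (by linarith)
        _ = 2 := Real.rpow_one 2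
    -- second term
    have t2 : (Z n : ℝ) ^ (6 : ℕ) ≤ ((n : ℝ) + 1) ^ K * (1 / 2) ^ (n + 1) * (b : ℝ) ^ (n + 1) := by
      have g1 : (Z n : ℝ) ^ (6 : ℕ) ≤ ((n : ℝ) + 1) ^ K := by
        calc (Z n : ℝ) ^ (6 : ℕ) ≤ (((n : ℝ) + 1) ^ (1 + ε)) ^ (6 : ℕ) :=
              pow_le_pow_left₀ hZ0.le (hZhi n) 6
          _ = ((n : ℝ) + 1) ^ (6 * (1 + ε)) := by
              rw [← Real.rpow_natCast, ← Real.rpow_mul hN0.le]
              congr 1
              push_cast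
              ring
          _ ≤ ((n : ℝ) + 1) ^ (K : ℝ) :=
              Real.rpow_le_rpow_of_exponent_le hN1 (Nat.le_ceil _)
          _ = ((n : ℝ) + 1) ^ K := Real.rpow_natCast _ _
      have g2 : (1 : ℝ) ≤ (1 / 2) ^ (n + 1) * (b : ℝ) ^ (n + 1) := by
        rw [← mul_pow]
        exact one_le_pow₀ (by linarith)
      calc (Z n : ℝ) ^ (6 : ℕ) ≤ ((n : ℝ) + 1) ^ K * 1 := by rw [mul_one]; exact g1
        _ ≤ ((n : ℝ) + 1) ^ K * ((1 / 2) ^ (n + 1) * (b : ℝ) ^ (n + 1)) :=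
            mul_le_mul_of_nonneg_left g2 (by positivity)
        _ = _ := by ring
    -- third term
    have t3 : 1 / (Z n : ℝ) ^ (2 : ℕ) ≤ 4 * ((n : ℝ) + 1) ^ (-(1 + ε / 2)) := by
      have g1 : (((n : ℝ) + 1) ^ (1 + ε) / 2) ^ (2 : ℕ) ≤ (Z n : ℝ) ^ (2 : ℕ) :=
        pow_le_pow_left₀ (by positivity) (hZlo n) 2
      have g2 : (((n : ℝ) + 1) ^ (1 + ε) / 2) ^ (2 : ℕ) = ((n : ℝ) + 1) ^ (2 * (1 + ε)) / 4 := by
        rw [div_pow, ← Real.rpow_natCast, ← Real.rpow_mul hN0.le]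
        norm_num
        ring_nf
      rw [g2] at g1
      have g3 : (0 : ℝ) < ((n : ℝ) + 1) ^ (2 * (1 + ε)) / 4 := by positivity
      refine (one_div_le_one_div_of_le g3 g1).trans ?_
      rw [one_div, inv_div, div_eq_mul_inv, ← Real.rpow_neg hN0.le]
      refine mul_le_mul_of_nonneg_left ?_ (by norm_num)
      exact Real.rpow_le_rpow_of_exponent_le hN1 (by linarith)
    have hbn1 : (1 : ℝ) ≤ (b : ℝ) ^ (n + 1) := one_le_pow₀ (by linarith)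
    have hp0 : (0 : ℝ) < ((n : ℝ) + 1) ^ (-(1 + ε / 2)) := by positivity
    push_cast
    have u1 : (B : ℝ) * (b : ℝ) ^ (n + 1) * (C * (Z n : ℝ) ^ (6 * δ - 1)) ≤
        c1 * ((n : ℝ) + 1) ^ (-(1 + ε / 2)) * (b : ℝ) ^ (n + 1) := by
      calc (B : ℝ) * (b : ℝ) ^ (n + 1) * (C * (Z n : ℝ) ^ (6 * δ - 1))
          ≤ (B : ℝ) * (b : ℝ) ^ (n + 1) * (C * (2 * ((n : ℝ) + 1) ^ (-(1 + ε / 2)))) := by
            gcongr
        _ = _ := by
            rw [hc1]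
            ring
    have u3 : 2 * ((B : ℝ) * (b : ℝ) ^ (n + 1) + 1) / (Z n : ℝ) ^ (2 : ℕ) ≤
        c2 * ((n : ℝ) + 1) ^ (-(1 + ε / 2)) * (b : ℝ) ^ (n + 1) := by
      calc 2 * ((B : ℝ) * (b : ℝ) ^ (n + 1) + 1) / (Z n : ℝ) ^ (2 : ℕ)
          = 2 * ((B : ℝ) * (b : ℝ) ^ (n + 1) + 1) * (1 / (Z n : ℝ) ^ (2 : ℕ)) := by ring
        _ ≤ 2 * ((B : ℝ) * (b : ℝ) ^ (n + 1) + (b : ℝ) ^ (n + 1)) *
            (4 * ((n : ℝ) + 1) ^ (-(1 + ε / 2))) := by gcongr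
        _ = _ := by
            rw [hc2]
            ring
    rw [hf]
    simp only
    rw [add_mul, add_mul, add_mul]
    linarith
  have hsum : (∑' n, volume (s n)) ≠ ⊤ := by
    refine ne_top_of_le_ne_top ?_ (ENNReal.tsum_le_tsum hvol)
    rw [← ENNReal.ofReal_tsum_of_nonneg hf0 hfs]
    exact ENNReal.ofReal_ne_top
  filter_upwards [ae_eventually_notMem hsum] with x hx hx0 hxB
  rw [eventually_atTop] at hx
  obtain ⟨N, hN⟩ := hx
  rw [eventually_atTop]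
  refine ⟨N + 1, fun n hn => ?_⟩
  obtain ⟨k, rfl⟩ : ∃ k, n = k + 1 := ⟨n - 1, by omega⟩
  have h1 := hN k (by omega)
  set m : ℕ := ⌊(b : ℝ) ^ (k + 1) * x⌋₊ with hm
  have hk0 : (0 : ℝ) < ((k + 1 : ℕ) : ℝ) := by positivity
  have hrd : (0 : ℝ) < rd (m * (m + 1)) := by exact_mod_cast rd_pos _
  rcases Nat.eq_zero_or_pos m with h0 | h0
  · rw [h0] at hrd ⊢
    have : (0 : ℝ) < ((k + 1 : ℕ) : ℝ) ^ (1 + ε) := by positivity
    have h2 : (0 : ℝ) < ((k + 1 : ℕ) : ℝ) ^ (1 + ε) * rd (0 * (0 + 1)) := mul_pos this hrd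
    simpa using h2
  · have hmX : m ≤ B * b ^ (k + 1) := by
      rw [hm]
      refine Nat.floor_le_of_le ?_
      push_cast
      rw [mul_comm]
      exact mul_le_mul_of_nonneg_right hxB (by positivity)
    have h2 : m ∉ bad (Z k) (B * b ^ (k + 1)) := fun h => h1 ⟨hx0, h⟩
    unfold bad at h2
    rw [mem_filter, not_and] at h2
    have h3 := h2 (mem_Icc.mpr ⟨h0, hmX⟩)
    rw [not_le] at h3
    have h4 : ((m * (m + 1) : ℕ) : ℝ) < (Z k : ℝ) * rd (m * (m + 1)) := by exact_mod_cast h3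
    refine h4.trans_le (mul_le_mul_of_nonneg_right ?_ hrd.le)
    have := hZhi k
    push_cast
    exact this

end Pool.Agent.Helper932MB
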