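import Mathlib
import Pool.Agent.Helper932MB.Ae

/-!
# Long runs of zeros: the lower bound for the defect, for almost every `x`
-/

set_option autoImplicit false

namespace Pool.Agent.Helper932MB

open Finset MeasureTheory Filter Topology
open Pool.Agent.H813R3.Voj (rd rd_pos)

/-- the numbers whose last `j` blocks of `k` digits are not zero -/
def blocks (q W j : ℕ) : Finset ℕ :=
  (range (W * q ^ j)).filter fun r => ∀ i < j, ¬ q ∣ r / q ^ i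

theorem card_blocks {q : ℕ} (hq : 1 ≤ q) (W j : ℕ) : (blocks q W j).card ≤ W * (q - 1) ^ j := by
  induction j with
  | zero =>
    refine (card_le_card (filter_subset _ _)).trans ?_
    simp
  | succ j ih =>
    have h1 : (blocks q W (j + 1)).card ≤ ((blocks q W j) ×ˢ (Ico 1 q)).card := by
      refine Finset.card_le_card_of_injOn (fun r => (r / q, r % q)) ?_ ?_
      · intro r hr
        have hr' : r ∈ blocks q W (j + 1) := hr
        unfold blocks at hr'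
        rw [mem_filter, mem_range] at hr'
        obtain ⟨hr1, hr2⟩ := hr'
        show (r / q, r % q) ∈ ((blocks q W j) ×ˢ (Ico 1 q) : Finset (ℕ × ℕ))
        rw [mem_product]
        refine ⟨?_, ?_⟩
        · unfold blocks
          rw [mem_filter, mem_range]
          refine ⟨?_, fun i hi => ?_⟩
          · refine Nat.div_lt_of_lt_mul ?_
            calc r < W * q ^ (j + 1) := hr1
              _ = q * (W * q ^ j) := by ring
          · have h2 := hr2 (i + 1) (by omega)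
            show ¬ q ∣ r / q / q ^ i
            rw [Nat.div_div_eq_div_mul, ← pow_succ']
            exact h2
        · rw [mem_Ico]
          have h2 := hr2 0 (by omega)
          rw [pow_zero, Nat.div_one] at h2
          have h3 : r % q ≠ 0 := fun h => h2 (Nat.dvd_of_mod_eq_zero h)
          have h4 := Nat.mod_lt r (by omega : 0 < q)
          show 1 ≤ r % q ∧ r % q < q
          omega
      · intro r _ r' _ h
        simp only [Prod.mk.injEq] at h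
        have h1 := Nat.div_add_mod r q
        have h2 := Nat.div_add_mod r' q
        rw [← h1, ← h2, h.1, h.2]
    refine h1.trans ?_
    rw [card_product, Nat.card_Ico, pow_succ, ← mul_assoc]
    exact Nat.mul_le_mul_right _ ih

/-- the points with no zero block -/
theorem vol_noblock {b : ℕ} (hb : 2 ≤ b) (B N k J : ℕ) :
    volume {x : ℝ | 0 ≤ x ∧ x < B ∧ ∀ i, 1 ≤ i → i ≤ J →
      ¬ b ^ k ∣ ⌊(b : ℝ) ^ (N + i * k) * x⌋₊} ≤
      ENNReal.ofReal (B * (1 - 1 / (b : ℝ) ^ k) ^ J) := by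
  have hb0 : (0 : ℝ) < b := by positivity
  have hq1 : 1 ≤ b ^ k := Nat.one_le_pow _ _ (by omega)
  have hT0 : (0 : ℝ) < (b : ℝ) ^ (N + J * k) := by positivity
  have hsub : {x : ℝ | 0 ≤ x ∧ x < B ∧ ∀ i, 1 ≤ i → i ≤ J →
      ¬ b ^ k ∣ ⌊(b : ℝ) ^ (N + i * k) * x⌋₊} ⊆
      {x : ℝ | 0 ≤ x ∧ ⌊(b : ℝ) ^ (N + J * k) * x⌋₊ ∈ blocks (b ^ k) (B * b ^ N) J} := by
    rintro x ⟨hx0, hxB, hx⟩
    refine ⟨hx0, ?_⟩
    unfold blocks
    rw [mem_filter, mem_range]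
    refine ⟨?_, fun i hi => ?_⟩
    · rw [Nat.floor_lt (by positivity)]
      push_cast
      have e1 : (B : ℝ) * (b : ℝ) ^ N * ((b : ℝ) ^ k) ^ J = (b : ℝ) ^ (N + J * k) * B := by
        rw [← pow_mul, pow_add, mul_comm k J]
        ring
      rw [e1]
      exact mul_lt_mul_of_pos_left hxB hT0
    · have h1 := hx (J - i) (by omega) (by omega)
      have e1 : ⌊(b : ℝ) ^ (N + J * k) * x⌋₊ / (b ^ k) ^ i =
          ⌊(b : ℝ) ^ (N + (J - i) * k) * x⌋₊ := by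
        rw [← Nat.floor_div_natCast]
        congr 1
        push_cast
        have e2 : N + J * k = (N + (J - i) * k) + k * i := by
          obtain ⟨l, rfl⟩ : ∃ l, J = l + i := ⟨J - i, by omega⟩
          have : l + i - i = l := by omega
          rw [this]
          ring
        rw [e2, pow_add, ← pow_mul]
        have : (b : ℝ) ^ (k * i) ≠ 0 := by positivity
        field_simp
      rw [e1]
      exact h1
  refine (measure_mono hsub).trans ((vol_cells hT0 _).trans (ENNReal.ofReal_le_ofReal ?_))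
  rw [div_le_iff₀ hT0]
  have h1 : ((blocks (b ^ k) (B * b ^ N) J).card : ℝ) ≤
      ((B * b ^ N * (b ^ k - 1) ^ J : ℕ) : ℝ) := by exact_mod_cast card_blocks hq1 _ _
  refine h1.trans (le_of_eq ?_)
  rw [Nat.cast_mul, Nat.cast_pow, Nat.cast_sub hq1]
  push_cast
  have hbk : (b : ℝ) ^ k ≠ 0 := by positivity
  have e1 : (1 - 1 / (b : ℝ) ^ k) ^ J * ((b : ℝ) ^ k) ^ J = ((b : ℝ) ^ k - 1) ^ J := by
    rw [← mul_pow]
    congr 1
    field_simp
  have e2 : (b : ℝ) ^ (N + J * k) = (b : ℝ) ^ N * ((b : ℝ) ^ k) ^ J := by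
    rw [pow_add, ← pow_mul, mul_comm k J]
  rw [e2, ← e1]
  ring

/-- for almost all `x` there are zero blocks of length `k` among the first `2 k ^ 2 b ^ k` digits -/
theorem ae_blocks {b : ℕ} (hb : 2 ≤ b) (B : ℕ) :
    ∀ᵐ x : ℝ, 0 ≤ x → x < B → ∀ᶠ k : ℕ in atTop, ∃ i, 1 ≤ i ∧ i ≤ k * b ^ k ∧
      b ^ k ∣ ⌊(b : ℝ) ^ (k ^ 2 * b ^ k + i * k) * x⌋₊ := by
  have hb0 : (0 : ℝ) < b := by positivity
  set s : ℕ → Set ℝ := fun k => {x : ℝ | 0 ≤ x ∧ x < B ∧ ∀ i, 1 ≤ i → i ≤ k * b ^ k →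
      ¬ b ^ k ∣ ⌊(b : ℝ) ^ (k ^ 2 * b ^ k + i * k) * x⌋₊} with hs
  have hvol : ∀ k, volume (s k) ≤ ENNReal.ofReal (B * (Real.exp (-1)) ^ k) := by
    intro k
    refine (vol_noblock hb B (k ^ 2 * b ^ k) k (k * b ^ k)).trans (ENNReal.ofReal_le_ofReal ?_)
    refine mul_le_mul_of_nonneg_left ?_ (Nat.cast_nonneg _)
    have hbk : (1 : ℝ) ≤ (b : ℝ) ^ k := one_le_pow₀ (by exact_mod_cast (by omega : 1 ≤ b))
    have h1 : (1 - 1 / (((b ^ k : ℕ)) : ℝ)) ^ (b ^ k) ≤ Real.exp (-1) := by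
      refine Real.one_sub_div_pow_le_exp_neg ?_
      push_cast
      exact hbk
    push_cast at h1
    have h0 : 0 ≤ (1 - 1 / (b : ℝ) ^ k) := by
      rw [sub_nonneg, div_le_one (by positivity)]
      exact hbk
    rw [mul_comm k, pow_mul]
    exact pow_le_pow_left₀ (pow_nonneg h0 _) h1 k
  have hg : Summable fun k : ℕ => (B : ℝ) * (Real.exp (-1)) ^ k := by
    refine Summable.mul_left _ (summable_geometric_of_lt_one (Real.exp_pos _).le ?_)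
    rw [Real.exp_lt_one_iff]
    norm_num
  have hsum : (∑' k, volume (s k)) ≠ ⊤ := by
    refine ne_top_of_le_ne_top ?_ (ENNReal.tsum_le_tsum hvol)
    rw [← ENNReal.ofReal_tsum_of_nonneg (fun k => by positivity) hg]
    exact ENNReal.ofReal_ne_top
  filter_upwards [ae_eventually_notMem hsum] with x hx hx0 hxB
  filter_upwards [hx] with k hk
  by_contra hcon
  push Not at hcon
  exact hk ⟨hx0, hxB, hcon⟩

/-- high powers reduce the radical -/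
theorem rd_pow_mul {b k M : ℕ} (hb : 0 < b) (hk : 1 ≤ k) (hM : 0 < M) (h : b ^ k ∣ M) :
    b ^ (k - 1) * rd M ≤ M := by
  obtain ⟨M', rfl⟩ := h
  have hM' : M' ≠ 0 := by
    rintro rfl
    simp at hM
  have h1 : rd (b ^ k * M') ∣ rd b * rd M' := by
    unfold rd
    rw [Nat.primeFactors_mul (by positivity) hM', Nat.primeFactors_pow b (by omega)]
    exact Dvd.intro _ (Finset.prod_union_inter)
  have h2 : rd (b ^ k * M') ≤ b * M' :=
    Nat.le_of_dvd (by positivity)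
      (h1.trans (mul_dvd_mul (rd_dvd b) (rd_dvd M')))
  calc b ^ (k - 1) * rd (b ^ k * M') ≤ b ^ (k - 1) * (b * M') := Nat.mul_le_mul_left _ h2
    _ = b ^ k * M' := by
        obtain ⟨l, rfl⟩ : ∃ l, k = l + 1 := ⟨k - 1, by omega⟩
        simp only [Nat.add_sub_cancel]
        ring

/-- the growth of the parameters -/
theorem growth {b : ℕ} (hb : 2 ≤ b) {ε : ℝ} (hε : 0 < ε) (hε1 : ε < 1) :
    ∀ᶠ k : ℕ in atTop, (2 * (k : ℝ) ^ 2 * (b : ℝ) ^ k) ^ (1 - ε) < (b : ℝ) ^ (k - 1) := by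
  have hb0 : (0 : ℝ) < b := by positivity
  have hb1 : (1 : ℝ) < b := by exact_mod_cast (by omega : 1 < b)
  have hr : 1 < (b : ℝ) ^ ε := Real.one_lt_rpow hb1 hε
  have h1 := tendsto_pow_const_div_const_pow_of_one_lt 2 hr
  have h2 : ∀ᶠ k : ℕ in atTop, (k : ℝ) ^ 2 / ((b : ℝ) ^ ε) ^ k < 1 / (2 * b) :=
    h1.eventually (gt_mem_nhds (by positivity))
  filter_upwards [h2, eventually_ge_atTop 1] with k hk hk1
  have hk0 : (1 : ℝ) ≤ k := by exact_mod_cast hk1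
  have hp : (0 : ℝ) < ((b : ℝ) ^ ε) ^ k := by positivity
  rw [div_lt_div_iff₀ hp (by positivity)] at hk
  have e1 : (2 * (k : ℝ) ^ 2 * (b : ℝ) ^ k) ^ (1 - ε) =
      (2 * (k : ℝ) ^ 2) ^ (1 - ε) * ((b : ℝ) ^ k) ^ (1 - ε) :=
    Real.mul_rpow (by positivity) (by positivity)
  have e2 : ((b : ℝ) ^ k) ^ (1 - ε) = (b : ℝ) ^ k / ((b : ℝ) ^ ε) ^ k := by
    rw [Real.rpow_sub (by positivity), Real.rpow_one]
    congr 1
    rw [← Real.rpow_natCast, ← Real.rpow_natCast, ← Real.rpow_mul hb0.le, ← Real.rpow_mul hb0.le,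
      mul_comm]
  have e3 : (2 * (k : ℝ) ^ 2) ^ (1 - ε) ≤ 2 * (k : ℝ) ^ 2 := by
    have g1 : (1 : ℝ) ≤ 2 * (k : ℝ) ^ 2 := by nlinarith
    calc (2 * (k : ℝ) ^ 2) ^ (1 - ε) ≤ (2 * (k : ℝ) ^ 2) ^ (1 : ℝ) :=
          Real.rpow_le_rpow_of_exponent_le g1 (by linarith)
      _ = _ := Real.rpow_one _
  have e4 : (b : ℝ) ^ k = (b : ℝ) ^ (k - 1) * b := by
    obtain ⟨l, rfl⟩ : ∃ l, k = l + 1 := ⟨k - 1, by omega⟩
    simp only [Nat.add_sub_cancel]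
    ring
  rw [e1, e2]
  have hbk : (0 : ℝ) < (b : ℝ) ^ (k - 1) := by positivity
  calc (2 * (k : ℝ) ^ 2) ^ (1 - ε) * ((b : ℝ) ^ k / ((b : ℝ) ^ ε) ^ k)
      ≤ (2 * (k : ℝ) ^ 2) * ((b : ℝ) ^ k / ((b : ℝ) ^ ε) ^ k) :=
        mul_le_mul_of_nonneg_right e3 (by positivity)
    _ < (b : ℝ) ^ (k - 1) := by
        rw [e4, mul_div_assoc', div_lt_iff₀ hp]
        have : (k : ℝ) ^ 2 * (2 * b) < ((b : ℝ) ^ ε) ^ k := by linarith
        nlinarith

/-- the lower half -/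
theorem lower_one (b B : ℕ) (hb : 2 ≤ b) :
    ∀ᵐ x : ℝ, 0 < x → x < B → ∀ ε : ℝ, 0 < ε → ∃ᶠ n : ℕ in atTop,
      (n : ℝ) ^ (1 - ε) * rd (⌊(b : ℝ) ^ n * x⌋₊ * (⌊(b : ℝ) ^ n * x⌋₊ + 1)) <
        ((⌊(b : ℝ) ^ n * x⌋₊ * (⌊(b : ℝ) ^ n * x⌋₊ + 1) : ℕ) : ℝ) := by
  filter_upwards [ae_blocks hb B] with x hx hx0 hxB ε hε
  have hb0 : (0 : ℝ) < b := by positivity
  have hb1 : (1 : ℝ) < b := by exact_mod_cast (by omega : 1 < b)
  set ε' : ℝ := min ε (1 / 2) with hε'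
  have hε'0 : 0 < ε' := lt_min hε (by norm_num)
  have hε'1 : ε' < 1 := lt_of_le_of_lt (min_le_right _ _) (by norm_num)
  have hε'ε : ε' ≤ ε := min_le_left _ _
  rw [frequently_atTop]
  intro n₀
  -- large `k`
  have hpow : Tendsto (fun n : ℕ => (b : ℝ) ^ n * x) atTop atTop :=
    (tendsto_pow_atTop_atTop_of_one_lt hb1).atTop_mul_const hx0
  obtain ⟨n₁, hn₁⟩ := eventually_atTop.mp (hpow.eventually_ge_atTop 1)
  obtain ⟨k, hk1, hk2, hk3⟩ := ((hx hx0.le hxB).and ((growth hb hε'0 hε'1).and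
    (eventually_ge_atTop (max 1 (max n₀ n₁))))).exists
  obtain ⟨i, hi1, hi2, hi3⟩ := hk1
  have hk0 : 1 ≤ k := (le_max_left _ _).trans hk3
  have hkn0 : n₀ ≤ k := (le_max_left _ _).trans ((le_max_right _ _).trans hk3)
  have hkn1 : n₁ ≤ k := (le_max_right _ _).trans ((le_max_right _ _).trans hk3)
  set n : ℕ := k ^ 2 * b ^ k + i * k with hn
  have hbk1 : 1 ≤ b ^ k := Nat.one_le_pow _ _ (by omega)
  have hkn : k ≤ n := by
    have h1 : k * 1 ≤ k ^ 2 * b ^ k := by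
      rw [sq, mul_assoc]
      refine Nat.mul_le_mul_left _ ?_
      exact Nat.one_le_iff_ne_zero.mpr (by positivity)
    omega
  have hn2 : n ≤ 2 * k ^ 2 * b ^ k := by
    have h1 : i * k ≤ k * b ^ k * k := Nat.mul_le_mul_right _ hi2
    have h2 : k * b ^ k * k = k ^ 2 * b ^ k := by ring
    have h3 : 2 * k ^ 2 * b ^ k = k ^ 2 * b ^ k + k ^ 2 * b ^ k := by ring
    omega
  refine ⟨n, hkn0.trans hkn, ?_⟩
  set m : ℕ := ⌊(b : ℝ) ^ n * x⌋₊ with hm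
  have hm1 : 1 ≤ m := (Nat.one_le_floor_iff _).mpr (hn₁ n (hkn1.trans hkn))
  have hM0 : 0 < m * (m + 1) := by positivity
  have h4 := rd_pow_mul (by omega : 0 < b) hk0 hM0 (hi3.mul_right (m + 1))
  have h5 : ((b ^ (k - 1) * rd (m * (m + 1)) : ℕ) : ℝ) ≤ ((m * (m + 1) : ℕ) : ℝ) := by
    exact_mod_cast h4
  refine lt_of_lt_of_le ?_ h5
  rw [Nat.cast_mul]
  have hrd : (0 : ℝ) < rd (m * (m + 1)) := by exact_mod_cast rd_pos _
  refine mul_lt_mul_of_pos_right ?_ hrd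
  have hn0 : (1 : ℝ) ≤ n := by exact_mod_cast (hk0.trans hkn)
  have hn2' : (n : ℝ) ≤ 2 * (k : ℝ) ^ 2 * (b : ℝ) ^ k := by exact_mod_cast hn2
  calc (n : ℝ) ^ (1 - ε) ≤ (n : ℝ) ^ (1 - ε') :=
        Real.rpow_le_rpow_of_exponent_le hn0 (by linarith)
    _ ≤ (2 * (k : ℝ) ^ 2 * (b : ℝ) ^ k) ^ (1 - ε') :=
        Real.rpow_le_rpow (by positivity) hn2' (by linarith)
    _ < (b : ℝ) ^ (k - 1) := hk2
    _ = ((b ^ (k - 1) : ℕ) : ℝ) := by push_cast; rfl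

/-- both halves -/
theorem main : ∀ᵐ x : ℝ, 0 < x → ∀ b : ℕ, 2 ≤ b → ∀ ε : ℝ, 0 < ε →
    (∀ᶠ n : ℕ in atTop,
      ((⌊(b : ℝ) ^ n * x⌋₊ * (⌊(b : ℝ) ^ n * x⌋₊ + 1) : ℕ) : ℝ) <
        (n : ℝ) ^ (1 + ε) * rd (⌊(b : ℝ) ^ n * x⌋₊ * (⌊(b : ℝ) ^ n * x⌋₊ + 1))) ∧
    ∃ᶠ n : ℕ in atTop,
      (n : ℝ) ^ (1 - ε) * rd (⌊(b : ℝ) ^ n * x⌋₊ * (⌊(b : ℝ) ^ n * x⌋₊ + 1)) <
        ((⌊(b : ℝ) ^ n * x⌋₊ * (⌊(b : ℝ) ^ n * x⌋₊ + 1) : ℕ) : ℝ) := by
  have h1 : ∀ᵐ x : ℝ, ∀ b B j : ℕ, 2 ≤ b → 0 ≤ x → x ≤ B → ∀ᶠ n : ℕ in atTop,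
      ((⌊(b : ℝ) ^ n * x⌋₊ * (⌊(b : ℝ) ^ n * x⌋₊ + 1) : ℕ) : ℝ) <
        (n : ℝ) ^ (1 + 1 / ((j : ℝ) + 1)) *
          rd (⌊(b : ℝ) ^ n * x⌋₊ * (⌊(b : ℝ) ^ n * x⌋₊ + 1)) := by
    rw [ae_all_iff]
    intro b
    rw [ae_all_iff]
    intro B
    rw [ae_all_iff]
    intro j
    by_cases hb : 2 ≤ b
    · filter_upwards [upper_one b B hb (by positivity : (0 : ℝ) < 1 / ((j : ℝ) + 1))] with x hx _
      exact hx
    · exact Eventually.of_forall fun x h => absurd h hb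
  have h2 : ∀ᵐ x : ℝ, ∀ b B : ℕ, 2 ≤ b → 0 < x → x < B → ∀ ε : ℝ, 0 < ε → ∃ᶠ n : ℕ in atTop,
      (n : ℝ) ^ (1 - ε) * rd (⌊(b : ℝ) ^ n * x⌋₊ * (⌊(b : ℝ) ^ n * x⌋₊ + 1)) <
        ((⌊(b : ℝ) ^ n * x⌋₊ * (⌊(b : ℝ) ^ n * x⌋₊ + 1) : ℕ) : ℝ) := by
    rw [ae_all_iff]
    intro b
    rw [ae_all_iff]
    intro B
    by_cases hb : 2 ≤ b
    · filter_upwards [lower_one b B hb] with x hx _
      exact hx
    · exact Eventually.of_forall fun x h => absurd h hb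
  filter_upwards [h1, h2] with x hx1 hx2 hx0 b hb ε hε
  obtain ⟨B, hB⟩ := exists_nat_gt x
  refine ⟨?_, hx2 b B hb hx0 hB ε hε⟩
  obtain ⟨j, hj⟩ := exists_nat_one_div_lt hε
  filter_upwards [hx1 b B j hb hx0.le hB.le, eventually_ge_atTop 1] with n hn hn1
  refine hn.trans_le (mul_le_mul_of_nonneg_right ?_ (Nat.cast_nonneg _))
  exact Real.rpow_le_rpow_of_exponent_le (by exact_mod_cast hn1) (by linarith)

end Pool.Agent.Helper932MB
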